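import Pool.Agent.ER.Defs

/-!
# Quartic forms with integer coefficients

A quartic form in the variables `z_0, z_1, z_2, …` (only finitely many of which occur) is given by
a list of terms `c z_i z_j z_k z_l` with integer coefficients `c`.
-/

namespace Pool.Agent.TH925.CQ

/-- A term `c z_i z_j z_k z_l`, given as `(c, (i, j), (k, l))`. -/
abbrev Mon : Type := ℤ × (ℕ × ℕ) × (ℕ × ℕ)

/-- The value of a term. -/
def mev (z : ℕ → ℝ) (m : Mon) : ℝ :=
  (m.1 : ℝ) * (z m.2.1.1 * z m.2.1.2) * (z m.2.2.1 * z m.2.2.2)

/-- The quartic form with the given list of terms. -/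
def form (L : List Mon) (z : ℕ → ℝ) : ℝ := (L.map (mev z)).sum

/-- The quartic form is a convex function. -/
def ConvexForm (L : List Mon) : Prop := ConvexOn ℝ Set.univ (form L)

/-- The quartic form is a quasiconvex function (its sublevel sets are convex). -/
def QuasiconvexForm (L : List Mon) : Prop := QuasiconvexOn ℝ Set.univ (form L)

/-- The quartic form `f` is a pseudoconvex function: if the derivative of `f` at `x` in the
direction `y - x` is nonnegative then `f(x) ≤ f(y)`. -/
def PseudoconvexForm (L : List Mon) : Prop :=
  ∀ x y : ℕ → ℝ, 0 ≤ deriv (fun s : ℝ => form L (x + s • (y - x))) 0 → form L x ≤ form L y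

end Pool.Agent.TH925.CQ
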