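import Mathlib
import Pool.Agent.TH925.CQ.Defs

/-!
# The second derivative of a quartic form, and a criterion for convexity
-/

namespace Pool.Agent.TH925.CQ

/-- The second derivative of a term at `z` in the direction `w`. -/
def hm (z w : ℕ → ℝ) (m : Mon) : ℝ :=
  (m.1 : ℝ) * (2 * ((w m.2.1.1 * w m.2.1.2) * (z m.2.2.1 * z m.2.2.2) +
    (w m.2.1.1 * z m.2.1.2 + z m.2.1.1 * w m.2.1.2) *
      (w m.2.2.1 * z m.2.2.2 + z m.2.2.1 * w m.2.2.2) +
    (z m.2.1.1 * z m.2.1.2) * (w m.2.2.1 * w m.2.2.2)))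

/-- The second derivative of a form at `z` in the direction `w`. -/
def hess (L : List Mon) (z w : ℕ → ℝ) : ℝ := (L.map (hm z w)).sum

/-- The Taylor expansion of a form along a line, and of its second derivative. -/
theorem taylor (L : List Mon) (z w : ℕ → ℝ) : ∃ b c d : ℝ, ∀ s : ℝ,
    form L (z + s • w) = form L z + b * s + hess L z w / 2 * s ^ 2 + c * s ^ 3 + d * s ^ 4 ∧
    hess L (z + s • w) w = hess L z w + 6 * c * s + 12 * d * s ^ 2 := by
  induction L with
  | nil => exact ⟨0, 0, 0, fun s => by simp [form, hess]⟩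
  | cons m L ih =>
    obtain ⟨b, c, d, h⟩ := ih
    refine ⟨b + (m.1 : ℝ) * ((w m.2.1.1 * z m.2.1.2 + z m.2.1.1 * w m.2.1.2) *
        (z m.2.2.1 * z m.2.2.2) + (z m.2.1.1 * z m.2.1.2) *
        (w m.2.2.1 * z m.2.2.2 + z m.2.2.1 * w m.2.2.2)),
      c + (m.1 : ℝ) * ((w m.2.1.1 * z m.2.1.2 + z m.2.1.1 * w m.2.1.2) *
        (w m.2.2.1 * w m.2.2.2) + (w m.2.1.1 * w m.2.1.2) *
        (w m.2.2.1 * z m.2.2.2 + z m.2.2.1 * w m.2.2.2)),
      d + (m.1 : ℝ) * ((w m.2.1.1 * w m.2.1.2) * (w m.2.2.1 * w m.2.2.2)), fun s => ?_⟩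
    obtain ⟨h1, h2⟩ := h s
    have e1 : form (m :: L) (z + s • w) = mev (z + s • w) m + form L (z + s • w) := by
      simp [form]
    have e2 : form (m :: L) z = mev z m + form L z := by simp [form]
    have e3 : hess (m :: L) (z + s • w) w = hm (z + s • w) w m + hess L (z + s • w) w := by
      simp [hess]
    have e4 : hess (m :: L) z w = hm z w m + hess L z w := by simp [hess]
    rw [e1, e2, e3, e4, h1, h2]
    unfold mev hm
    simp only [Pi.add_apply, Pi.smul_apply, smul_eq_mul]
    constructor <;> ring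

/-- A quartic polynomial in one variable with nonnegative second derivative is convex. -/
theorem quartic_convex (a b c d e : ℝ) (h : ∀ s : ℝ, 0 ≤ 2 * c + 6 * d * s + 12 * e * s ^ 2) :
    ConvexOn ℝ Set.univ (fun s : ℝ => a + b * s + c * s ^ 2 + d * s ^ 3 + e * s ^ 4) := by
  have h1 : ∀ s : ℝ, HasDerivAt (fun s : ℝ => a + b * s + c * s ^ 2 + d * s ^ 3 + e * s ^ 4)
      (b + 2 * c * s + 3 * d * s ^ 2 + 4 * e * s ^ 3) s := by
    intro s
    have e1 : HasDerivAt (fun s : ℝ => b * s) (b * 1) s := (hasDerivAt_id s).const_mul b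
    have e2 : HasDerivAt (fun s : ℝ => c * s ^ 2) (c * (2 * s)) s := by
      simpa using (hasDerivAt_pow 2 s).const_mul c
    have e3 : HasDerivAt (fun s : ℝ => d * s ^ 3) (d * (3 * s ^ 2)) s := by
      simpa using (hasDerivAt_pow 3 s).const_mul d
    have e4 : HasDerivAt (fun s : ℝ => e * s ^ 4) (e * (4 * s ^ 3)) s := by
      simpa using (hasDerivAt_pow 4 s).const_mul e
    exact ((((e1.const_add a).add e2).add e3).add e4).congr_deriv (by ring)
  have h2 : ∀ s : ℝ, HasDerivAt (fun s : ℝ => b + 2 * c * s + 3 * d * s ^ 2 + 4 * e * s ^ 3)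
      (2 * c + 6 * d * s + 12 * e * s ^ 2) s := by
    intro s
    have e1 : HasDerivAt (fun s : ℝ => 2 * c * s) (2 * c * 1) s :=
      (hasDerivAt_id s).const_mul (2 * c)
    have e2 : HasDerivAt (fun s : ℝ => 3 * d * s ^ 2) (3 * d * (2 * s)) s := by
      simpa using (hasDerivAt_pow 2 s).const_mul (3 * d)
    have e3 : HasDerivAt (fun s : ℝ => 4 * e * s ^ 3) (4 * e * (3 * s ^ 2)) s := by
      simpa using (hasDerivAt_pow 3 s).const_mul (4 * e)
    exact (((e1.const_add b).add e2).add e3).congr_deriv (by ring)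
  exact convexOn_of_hasDerivWithinAt2_nonneg convex_univ
    (fun s _ => (h1 s).continuousAt.continuousWithinAt)
    (fun s _ => (h1 s).hasDerivWithinAt) (fun s _ => (h2 s).hasDerivWithinAt)
    (fun s _ => h s)

/-- A quartic form is convex if and only if its second derivatives are nonnegative. -/
theorem convexForm_iff (L : List Mon) : ConvexForm L ↔ ∀ z w : ℕ → ℝ, 0 ≤ hess L z w := by
  constructor
  · intro h z w
    obtain ⟨b, c, d, hs⟩ := taylor L z w
    by_contra hneg
    push Not at hneg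
    -- the second difference is nonnegative
    have key : ∀ s : ℝ, 0 ≤ hess L z w / 2 * s ^ 2 + d * s ^ 4 := by
      intro s
      have h1 := h.2 (Set.mem_univ (z + s • w)) (Set.mem_univ (z + (-s) • w))
        (show (0 : ℝ) ≤ 1 / 2 by norm_num) (show (0 : ℝ) ≤ 1 / 2 by norm_num) (by norm_num)
      have h2 : (1 / 2 : ℝ) • (z + s • w) + (1 / 2 : ℝ) • (z + (-s) • w) = z := by
        ext i
        simp only [Pi.add_apply, Pi.smul_apply, smul_eq_mul]
        ring
      rw [h2, (hs s).1, (hs (-s)).1] at h1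
      simp only [smul_eq_mul] at h1
      nlinarith
    set a := hess L z w with ha
    have hd : 0 < d := by
      by_contra hd
      push Not at hd
      have := key 1
      nlinarith
    -- small s
    have h3 : 0 < -a / (4 * d) := by apply div_pos <;> linarith
    have h4 := key (Real.sqrt (-a / (4 * d)))
    have h5 : Real.sqrt (-a / (4 * d)) ^ 2 = -a / (4 * d) := Real.sq_sqrt h3.le
    have h6 : Real.sqrt (-a / (4 * d)) ^ 4 = (-a / (4 * d)) ^ 2 := by
      rw [show Real.sqrt (-a / (4 * d)) ^ 4 = (Real.sqrt (-a / (4 * d)) ^ 2) ^ 2 by ring, h5]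
    rw [h5, h6] at h4
    have h7 : a / 2 * (-a / (4 * d)) + d * (-a / (4 * d)) ^ 2 = -a ^ 2 / (16 * d) := by
      field_simp
      ring
    rw [h7] at h4
    have h8 : -a ^ 2 / (16 * d) < 0 := by
      apply div_neg_of_neg_of_pos
      · nlinarith
      · linarith
    linarith
  · intro h
    refine ⟨convex_univ, fun x _ y _ p q hp hq hpq => ?_⟩
    obtain ⟨b, c, d, hs⟩ := taylor L x (y - x)
    have h1 := quartic_convex (form L x) b (hess L x (y - x) / 2) c d (fun s => by
      have := h (x + s • (y - x)) (y - x)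
      rw [(hs s).2] at this
      linarith)
    have h2 := h1.2 (Set.mem_univ (0 : ℝ)) (Set.mem_univ (1 : ℝ)) hp hq hpq
    have h3 : p • x + q • y = x + q • (y - x) := by
      have : p = 1 - q := by linarith
      rw [this]
      ext i
      simp only [Pi.add_apply, Pi.smul_apply, Pi.sub_apply, smul_eq_mul]
      ring
    have h4 : form L y = form L (x + (1 : ℝ) • (y - x)) := by
      congr 1
      ext i
      simp
    rw [h3, h4, (hs q).1, (hs 1).1]
    simp only [smul_eq_mul, mul_zero, mul_one, zero_add] at h2 ⊢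
    calc _ ≤ _ := h2
      _ = _ := by ring

end Pool.Agent.TH925.CQ
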