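import Pool.Agent.TH925.CQ.Red

/-!
# The instance of a system
-/

namespace Pool.Agent.TH925.CQ

open Pool.Agent.NPC Pool.Agent.NPC.ER Pool.Agent.H78R3.TSV Pool.Agent.TH662.SN

/-- The bilinear forms of a system. -/
def lf (S : List ER.Con) : List (List QT) := formsU (hn (gsys S)) (hsysU (gsys S)) (uix S)

/-- The threshold (the square of the spectral norm). -/
def th (S : List ER.Con) : ℕ := (48 * (18 * (hsysU (gsys S)).length)) ^ 2

/-- The quartic form of a system. -/
def instC (S : List ER.Con) : List Mon := qf (hn (gsys S)) (th S : ℤ) (lf S)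

theorem sum_sq_eq (L : List (List QT)) (x y : ℕ → ℝ) :
    (L.map fun f => fev x y f ^ 2).sum = H78R3.TSV.S x y x y L := by
  unfold H78R3.TSV.S
  congr 1
  apply List.map_congr_left
  intro f _
  ring

theorem ip_self_eq (n : ℕ) (x : ℕ → ℝ) : ip n x x = ∑ i ∈ Finset.range n, x i ^ 2 := by
  rw [ip_eq]
  exact Finset.sum_congr rfl fun i _ => (sq _).symm

theorem fev_smul (a b : ℝ) (x y : ℕ → ℝ) (f : List QT) :
    fev (fun i => a * x i) (fun i => b * y i) f = a * b * fev x y f := by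
  unfold fev
  rw [← List.sum_map_mul_left]
  congr 1
  apply List.map_congr_left
  intro t _
  unfold tev bev
  ring

theorem ip_smul (n : ℕ) (a : ℝ) (x : ℕ → ℝ) :
    ip n (fun i => a * x i) (fun i => a * x i) = a ^ 2 * ip n x x := by
  unfold ip
  rw [← List.sum_map_mul_left]
  congr 1
  apply List.map_congr_left
  intro t _
  ring

theorem lf_ok (S : List ER.Con) : ∀ f ∈ lf S, FOk (hn (gsys S)) f := by
  have hu := uix_lt S
  have hun : uix S < hn (gsys S) := by unfold hn; omega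
  exact fok_formsU (hsysU_ok (gsys S)) hun (by omega)

/-- Normalisation of a point at which the biquadratic form is negative. -/
theorem normalise {n : ℕ} {L : List (List QT)} (hL : ∀ f ∈ L, FOk n f) {s : ℝ} (_hs : 0 ≤ s)
    {x y : ℕ → ℝ} (h : s * (ip n x x * ip n y y) < (L.map fun f => fev x y f ^ 2).sum) :
    ∃ x y : ℕ → ℝ, ∑ i ∈ Finset.range n, x i ^ 2 = 1 ∧ ∑ i ∈ Finset.range n, y i ^ 2 = 1 ∧
      s < H78R3.TSV.S x y x y L := by
  have hX0 : 0 ≤ ip n x x := ip_self_nonneg _ _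
  have hY0 : 0 ≤ ip n y y := ip_self_nonneg _ _
  have hpos : 0 < ip n x x * ip n y y := by
    by_contra hcon
    have h0 : ip n x x * ip n y y = 0 := le_antisymm (not_lt.1 hcon) (mul_nonneg hX0 hY0)
    have h1 : (L.map fun f => fev x y f ^ 2).sum = 0 := by
      apply List.sum_eq_zero
      intro r hr
      obtain ⟨f, hf, rfl⟩ := List.mem_map.1 hr
      have h2 := abs_fev_le (hL f hf) x y
      rw [← Real.sqrt_mul hX0, h0, Real.sqrt_zero, mul_zero] at h2
      have h3 : fev x y f = 0 := abs_eq_zero.1 (le_antisymm h2 (abs_nonneg _))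
      simp [h3]
    rw [h0, h1] at h
    simp at h
  have hX1 : 0 < ip n x x := by
    rcases hX0.lt_or_eq with h1 | h1
    · exact h1
    · rw [← h1, zero_mul] at hpos; exact absurd hpos (lt_irrefl _)
  have hY1 : 0 < ip n y y := by
    rcases hY0.lt_or_eq with h1 | h1
    · exact h1
    · rw [← h1, mul_zero] at hpos; exact absurd hpos (lt_irrefl _)
  have ha2 : ((Real.sqrt (ip n x x))⁻¹) ^ 2 = (ip n x x)⁻¹ := by rw [inv_pow, Real.sq_sqrt hX0]
  have hb2 : ((Real.sqrt (ip n y y))⁻¹) ^ 2 = (ip n y y)⁻¹ := by rw [inv_pow, Real.sq_sqrt hY0]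
  refine ⟨fun i => (Real.sqrt (ip n x x))⁻¹ * x i, fun i => (Real.sqrt (ip n y y))⁻¹ * y i,
    ?_, ?_, ?_⟩
  · rw [← ip_self_eq, ip_smul, ha2, inv_mul_cancel₀ hX1.ne']
  · rw [← ip_self_eq, ip_smul, hb2, inv_mul_cancel₀ hY1.ne']
  · rw [← sum_sq_eq]
    have e4 : (L.map fun f => fev (fun i => (Real.sqrt (ip n x x))⁻¹ * x i)
        (fun i => (Real.sqrt (ip n y y))⁻¹ * y i) f ^ 2).sum =
        (ip n x x * ip n y y)⁻¹ * (L.map fun f => fev x y f ^ 2).sum := by
      rw [← List.sum_map_mul_left]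
      congr 1
      apply List.map_congr_left
      intro f _
      rw [fev_smul, mul_pow, mul_pow, ha2, hb2, mul_inv]
    rw [e4, lt_inv_mul_iff₀ hpos]
    linarith

theorem th_cast (S : List ER.Con) :
    (((th S : ℕ) : ℤ) : ℝ) = (48 * (18 * ((hsysU (gsys S)).length : ℝ))) ^ 2 := by
  unfold th
  push_cast
  ring

theorem sat_iff_neg (S : List ER.Con) : Sat S ↔
    ∃ x y : ℕ → ℝ, BQ (hn (gsys S)) (th S : ℤ) (lf S) x y < 0 := by
  have hne := hsysU_ne_nil (gsys_ne_nil S)
  have hG := hsysU_ok (gsys S)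
  have hu := uix_lt S
  have hun : uix S < hn (gsys S) := by unfold hn; omega
  have hth := th_cast S
  constructor
  · intro h
    obtain ⟨w, hw, hc, hw0⟩ := gsys_of_sat h
    obtain ⟨x, x0, xi, hx⟩ := hom_of_sol hw hc
    obtain ⟨x', y', hx', hy', hb⟩ := big_of_sol hG (le_refl _) hun (x₀ := x)
      (by rw [x0]; norm_num) (by
        have := xi _ (uix_mem S)
        unfold uix
        rw [this]
        exact hw0) hx
    refine ⟨x', y', ?_⟩
    unfold BQ
    rw [hth, ip_self_eq, ip_self_eq, hx', hy', sum_sq_eq]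
    unfold lf
    linarith
  · rintro ⟨x, y, h⟩
    have hs : (0 : ℝ) ≤ (((th S : ℕ) : ℤ) : ℝ) := by rw [hth]; positivity
    obtain ⟨x', y', e1, e2, e3⟩ := normalise (lf_ok S) hs (x := x) (y := y) (by
      unfold BQ at h
      linarith)
    rw [hth] at e3
    obtain ⟨h1, h2⟩ := approx_of_big hG hne hun e1.le e2.le e3
    exact sat_of_approx h1 h2

theorem sat_iff_not_convex (S : List ER.Con) : Sat S ↔ ¬ ConvexForm (instC S) := by
  unfold instC
  rw [convex_qf_iff (by positivity) (lf_ok S), sat_iff_neg]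
  push Not
  rfl

end Pool.Agent.TH925.CQ
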