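import Mathlib
import Pool.Agent.TH925.CQ.Conv

/-!
# Quasiconvex and pseudoconvex quartic forms are convex
-/

namespace Pool.Agent.TH925.CQ

open Filter Topology

theorem form_smul (L : List Mon) (t : ℝ) (z : ℕ → ℝ) : form L (t • z) = t ^ 4 * form L z := by
  unfold form
  rw [← List.sum_map_mul_left]
  congr 1
  apply List.map_congr_left
  intro m _
  unfold mev
  simp only [Pi.smul_apply, smul_eq_mul]
  ring

theorem form_zero (L : List Mon) : form L 0 = 0 := by
  have := form_smul L 0 0
  simpa using this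

theorem nonneg_of_quasi {L : List Mon} (h : QuasiconvexForm L) (z : ℕ → ℝ) : 0 ≤ form L z := by
  by_contra hneg
  push Not at hneg
  have h1 := h (form L z)
  have h2 : form L ((-1 : ℝ) • z) = form L z := by
    rw [form_smul]; norm_num
  have h3 := h1 (x := z) ⟨Set.mem_univ _, le_refl _⟩ (y := (-1 : ℝ) • z)
    ⟨Set.mem_univ _, h2.le⟩ (show (0 : ℝ) ≤ 1 / 2 by norm_num)
    (show (0 : ℝ) ≤ 1 / 2 by norm_num) (by norm_num)
  have h4 : (1 / 2 : ℝ) • z + (1 / 2 : ℝ) • ((-1 : ℝ) • z) = 0 := by
    ext i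
    simp
  rw [h4] at h3
  have h5 := h3.2
  rw [form_zero] at h5
  linarith

theorem quasi_iff (L : List Mon) : QuasiconvexForm L ↔ ConvexForm L := by
  refine ⟨fun h => ⟨convex_univ, fun x _ y _ p q hp hq hpq => ?_⟩, fun h => h.quasiconvexOn⟩
  have h0 := nonneg_of_quasi h
  set α := Real.sqrt (Real.sqrt (form L x)) with hα
  set β := Real.sqrt (Real.sqrt (form L y)) with hβ
  have hα0 : 0 ≤ α := Real.sqrt_nonneg _
  have hβ0 : 0 ≤ β := Real.sqrt_nonneg _
  have hα4 : α ^ 4 = form L x := by
    rw [show α ^ 4 = (α ^ 2) ^ 2 by ring, hα, Real.sq_sqrt (Real.sqrt_nonneg _),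
      Real.sq_sqrt (h0 x)]
  have hβ4 : β ^ 4 = form L y := by
    rw [show β ^ 4 = (β ^ 2) ^ 2 by ring, hβ, Real.sq_sqrt (Real.sqrt_nonneg _),
      Real.sq_sqrt (h0 y)]
  have key : ∀ e : ℝ, 0 < e → form L (p • x + q • y) ≤ p * (α + e) ^ 4 + q * (β + e) ^ 4 := by
    intro e he
    have ha : 0 < α + e := by linarith
    have hb : 0 < β + e := by linarith
    have hx : form L ((α + e)⁻¹ • x) ≤ 1 := by
      rw [form_smul, ← hα4, ← mul_pow]
      apply pow_le_one₀ (by positivity)
      rw [inv_mul_le_iff₀ ha]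
      linarith
    have hy : form L ((β + e)⁻¹ • y) ≤ 1 := by
      rw [form_smul, ← hβ4, ← mul_pow]
      apply pow_le_one₀ (by positivity)
      rw [inv_mul_le_iff₀ hb]
      linarith
    set t := p * (α + e) + q * (β + e) with ht
    have ht0 : 0 < t := by
      have : t = p * α + q * β + e := by
        rw [ht]
        have : p * (α + e) + q * (β + e) = p * α + q * β + (p + q) * e := by ring
        rw [this, hpq, one_mul]
      rw [this]
      have := mul_nonneg hp hα0
      have := mul_nonneg hq hβ0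
      linarith
    have h3 := (h 1 (x := (α + e)⁻¹ • x) ⟨Set.mem_univ _, hx⟩ (y := (β + e)⁻¹ • y)
      ⟨Set.mem_univ _, hy⟩ (show (0 : ℝ) ≤ p * (α + e) / t by positivity)
      (show (0 : ℝ) ≤ q * (β + e) / t by positivity)
      (by rw [← add_div, ← ht, div_self ht0.ne'])).2
    have h4 : (p * (α + e) / t) • ((α + e)⁻¹ • x) + (q * (β + e) / t) • ((β + e)⁻¹ • y) =
        t⁻¹ • (p • x + q • y) := by
      ext i
      simp only [Pi.add_apply, Pi.smul_apply, smul_eq_mul]
      field_simp
    rw [h4, form_smul, inv_pow, inv_mul_le_iff₀ (by positivity), mul_one] at h3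
    have h5 := (convexOn_pow 4 (𝕜 := ℝ)).2 (x := α + e) (Set.mem_Ici.2 ha.le) (y := β + e)
      (Set.mem_Ici.2 hb.le) hp hq hpq
    simp only [smul_eq_mul] at h5
    exact h3.trans h5
  have hlim : Tendsto (fun e : ℝ => p * (α + e) ^ 4 + q * (β + e) ^ 4) (𝓝[>] 0)
      (𝓝 (p * (α + 0) ^ 4 + q * (β + 0) ^ 4)) := by
    apply Tendsto.mono_left _ nhdsWithin_le_nhds
    apply Continuous.tendsto
    fun_prop
  have h6 := ge_of_tendsto hlim (eventually_nhdsWithin_of_forall fun e he => key e he)
  rw [add_zero, add_zero, hα4, hβ4] at h6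
  simpa [smul_eq_mul] using h6

/-- The derivative along a line. -/
theorem hasDerivAt_line (L : List Mon) (z w : ℕ → ℝ) : ∃ b : ℝ,
    HasDerivAt (fun s : ℝ => form L (z + s • w)) b 0 := by
  obtain ⟨b, c, d, h⟩ := taylor L z w
  refine ⟨b, ?_⟩
  have h0 : (fun s : ℝ => form L (z + s • w)) = fun s : ℝ =>
      form L z + b * s + hess L z w / 2 * s ^ 2 + c * s ^ 3 + d * s ^ 4 := funext fun s => (h s).1
  rw [h0]
  have e1 : HasDerivAt (fun s : ℝ => b * s) (b * 1) 0 := (hasDerivAt_id (0 : ℝ)).const_mul b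
  have e2 : HasDerivAt (fun s : ℝ => hess L z w / 2 * s ^ 2) (hess L z w / 2 * (2 * 0)) 0 := by
    simpa using (hasDerivAt_pow 2 (0 : ℝ)).const_mul (hess L z w / 2)
  have e3 : HasDerivAt (fun s : ℝ => c * s ^ 3) (c * (3 * 0 ^ 2)) 0 := by
    simpa using (hasDerivAt_pow 3 (0 : ℝ)).const_mul c
  have e4 : HasDerivAt (fun s : ℝ => d * s ^ 4) (d * (4 * 0 ^ 3)) 0 := by
    simpa using (hasDerivAt_pow 4 (0 : ℝ)).const_mul d
  exact ((((e1.const_add _).add e2).add e3).add e4).congr_deriv (by ring)

theorem pseudo_of_convex {L : List Mon} (h : ConvexForm L) : PseudoconvexForm L := by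
  intro x y hd
  have h1 : ConvexOn ℝ Set.univ (fun s : ℝ => form L (x + s • (y - x))) := by
    obtain ⟨b, c, d, hs⟩ := taylor L x (y - x)
    have h0 : (fun s : ℝ => form L (x + s • (y - x))) = fun s : ℝ => form L x + b * s +
        hess L x (y - x) / 2 * s ^ 2 + c * s ^ 3 + d * s ^ 4 := funext fun s => (hs s).1
    rw [h0]
    refine quartic_convex _ _ _ _ _ fun s => ?_
    have := (convexForm_iff L).1 h (x + s • (y - x)) (y - x)
    rw [(hs s).2] at this
    linarith
  obtain ⟨b, hb⟩ := hasDerivAt_line L x (y - x)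
  have h2 := h1.le_slope_of_hasDerivAt (Set.mem_univ 0) (Set.mem_univ 1) one_pos hb
  rw [hb.deriv] at hd
  rw [slope_def_field] at h2
  have e1 : form L (x + (1 : ℝ) • (y - x)) = form L y := by
    congr 1; ext i; simp
  have e2 : form L (x + (0 : ℝ) • (y - x)) = form L x := by
    congr 1; ext i; simp
  simp only [e1, e2, sub_zero, div_one] at h2
  linarith

theorem quasi_of_pseudo {L : List Mon} (h : PseudoconvexForm L) : QuasiconvexForm L := by
  intro r x hx y hy p q hp hq hpq
  refine ⟨Set.mem_univ _, ?_⟩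
  by_contra hcon
  push Not at hcon
  set z := p • x + q • y with hz
  -- the derivatives at `z` in the directions of `x` and `y` are negative
  have key : ∀ u : ℕ → ℝ, form L u ≤ r → ∀ b : ℝ,
      HasDerivAt (fun s : ℝ => form L (z + s • (u - z))) b 0 → b < 0 := by
    intro u hu b hb
    by_contra hb0
    push Not at hb0
    have := h z u (by rw [hb.deriv]; exact hb0)
    linarith
  obtain ⟨b, hb⟩ := hasDerivAt_line L z (y - x)
  have hxz : x - z = (-q) • (y - x) := by
    rw [hz]
    have : p = 1 - q := by linarith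
    rw [this]
    ext i
    simp only [Pi.sub_apply, Pi.add_apply, Pi.smul_apply, smul_eq_mul]
    ring
  have hyz : y - z = p • (y - x) := by
    rw [hz]
    have : q = 1 - p := by linarith
    rw [this]
    ext i
    simp only [Pi.sub_apply, Pi.add_apply, Pi.smul_apply, smul_eq_mul]
    ring
  have hc : ∀ c : ℝ, HasDerivAt (fun s : ℝ => form L (z + s • (c • (y - x)))) (b * c) 0 := by
    intro c
    have h1 : HasDerivAt (fun s : ℝ => s * c) c 0 := by
      simpa using (hasDerivAt_id (0 : ℝ)).mul_const c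
    have h2 : HasDerivAt (fun s : ℝ => form L (z + s • (y - x))) b ((fun s : ℝ => s * c) 0) := by
      simpa using hb
    have h3 := HasDerivAt.comp (0 : ℝ) h2 h1
    refine h3.congr_of_eventuallyEq (Filter.Eventually.of_forall fun s => ?_)
    simp only [Function.comp, smul_smul]
  have h1 := key x hx.2 (b * (-q)) (by rw [hxz]; exact hc _)
  have h2 := key y hy.2 (b * p) (by rw [hyz]; exact hc _)
  rcases le_or_gt 0 b with h3 | h3
  · have := mul_nonneg h3 hp
    linarith
  · nlinarith

theorem pseudo_iff (L : List Mon) : PseudoconvexForm L ↔ ConvexForm L :=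
  ⟨fun h => (quasi_iff L).1 (quasi_of_pseudo h), pseudo_of_convex⟩

end Pool.Agent.TH925.CQ
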