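import Pool.Agent.TH925.CQ.Conv
import Pool.Agent.TH662.SN.Exceed

/-!
# From biquadratic forms to convex quartic forms

The biquadratic form `B(x, y) = s |x|² |y|² - ∑ β(x, y)²` is nonnegative if and only if the quartic
form `B(x, y) + K (|x|⁴ + |y|⁴)` is convex, if `K` is large.
-/

namespace Pool.Agent.TH925.CQ

open Pool.Agent.NPC Pool.Agent.NPC.ER Pool.Agent.H78R3.TSV Pool.Agent.TH662.SN

/-- The inner product of the first `n` coordinates. -/
def ip (n : ℕ) (a b : ℕ → ℝ) : ℝ := ((List.range n).map fun i => a i * b i).sum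

/-- The ordered terms of a symmetric bilinear form. -/
def bil (f : List QT) : List QT :=
  f.flatMap fun t => [(t.1, t.2.1, t.2.2), (t.1, t.2.2, t.2.1)]

/-- The value of a bilinear form given by its ordered terms. -/
def bv (x y : ℕ → ℝ) (l : List QT) : ℝ :=
  (l.map fun t => (t.1 : ℝ) * (x t.2.1 * y t.2.2)).sum

theorem bv_bil (x y : ℕ → ℝ) (f : List QT) : bv x y (bil f) = fev x y f := by
  induction f with
  | nil => rfl
  | cons t f ih =>
    have h1 : bil (t :: f) = (t.1, t.2.1, t.2.2) :: (t.1, t.2.2, t.2.1) :: bil f := rfl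
    have h2 : fev x y (t :: f) = tev x y t + fev x y f := by simp [fev]
    rw [h1, h2, ← ih]
    unfold bv tev bev
    simp only [List.map_cons, List.sum_cons]
    ring

/-- The even and the odd coordinates. -/
def ev (z : ℕ → ℝ) : ℕ → ℝ := fun i => z (2 * i)
def od (z : ℕ → ℝ) : ℕ → ℝ := fun i => z (2 * i + 1)

/-- `c |a|² |b|²` where `a`, `b` are the even or the odd coordinates. -/
def sqM (c : ℤ) (n : ℕ) (p q : ℕ) : List Mon :=
  (List.range n).flatMap fun i => (List.range n).map fun j =>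
    (c, (2 * i + p, 2 * i + p), (2 * j + q, 2 * j + q))

/-- `- β(x, y)²`. -/
def prM (l : List QT) : List Mon :=
  l.flatMap fun t => l.map fun t' =>
    (-(t.1 * t'.1), (2 * t.2.1, 2 * t.2.2 + 1), (2 * t'.2.1, 2 * t'.2.2 + 1))

theorem sum_prod {α β : Type} (l : List α) (l' : List β) (F : α → β → Mon) (φ : Mon → ℝ) :
    ((l.flatMap fun a => l'.map (F a)).map φ).sum =
      (l.map fun a => (l'.map fun b => φ (F a b)).sum).sum := by
  induction l with
  | nil => rfl
  | cons a l ih =>
    rw [List.flatMap_cons, List.map_append, List.sum_append, ih, List.map_cons, List.sum_cons,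
      List.map_map]
    rfl

theorem sum_mul3 {α β : Type} (l : List α) (l' : List β) (f₁ f₂ f₃ : α → ℝ) (g₁ g₂ g₃ : β → ℝ) :
    (l.map fun a => (l'.map fun b => f₁ a * g₁ b + f₂ a * g₂ b + f₃ a * g₃ b).sum).sum =
      (l.map f₁).sum * (l'.map g₁).sum + (l.map f₂).sum * (l'.map g₂).sum +
        (l.map f₃).sum * (l'.map g₃).sum := by
  simp only [List.sum_map_add, List.sum_map_mul_left, List.sum_map_mul_right]

theorem hess_sqM (c : ℤ) (n p q : ℕ) (z w : ℕ → ℝ) : hess (sqM c n p q) z w =
    2 * c * (ip n (fun i => w (2 * i + p)) (fun i => w (2 * i + p)) *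
        ip n (fun i => z (2 * i + q)) (fun i => z (2 * i + q)) +
      4 * (ip n (fun i => z (2 * i + p)) (fun i => w (2 * i + p)) *
        ip n (fun i => z (2 * i + q)) (fun i => w (2 * i + q))) +
      ip n (fun i => z (2 * i + p)) (fun i => z (2 * i + p)) *
        ip n (fun i => w (2 * i + q)) (fun i => w (2 * i + q))) := by
  unfold hess sqM
  rw [sum_prod]
  have h1 : ∀ i j : ℕ, hm z w (c, (2 * i + p, 2 * i + p), (2 * j + q, 2 * j + q)) =
      (w (2 * i + p) * w (2 * i + p)) * (2 * c * (z (2 * j + q) * z (2 * j + q))) +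
      (z (2 * i + p) * w (2 * i + p)) * (8 * c * (z (2 * j + q) * w (2 * j + q))) +
      (z (2 * i + p) * z (2 * i + p)) * (2 * c * (w (2 * j + q) * w (2 * j + q))) := by
    intro i j
    unfold hm
    ring
  simp_rw [h1]
  rw [sum_mul3]
  unfold ip
  simp only [List.sum_map_mul_left]
  ring

theorem hess_prM (l : List QT) (z w : ℕ → ℝ) : hess (prM l) z w =
    -(4 * (bv (ev z) (od z) l * bv (ev w) (od w) l) +
      2 * (bv (ev z) (od w) l + bv (ev w) (od z) l) ^ 2) := by
  unfold hess prM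
  rw [sum_prod]
  have h1 : ∀ t t' : QT, hm z w
      (-(t.1 * t'.1), (2 * t.2.1, 2 * t.2.2 + 1), (2 * t'.2.1, 2 * t'.2.2 + 1)) =
      ((t.1 : ℝ) * (ev w t.2.1 * od w t.2.2)) * (-2 * ((t'.1 : ℝ) * (ev z t'.2.1 * od z t'.2.2))) +
      ((t.1 : ℝ) * (ev w t.2.1 * od z t.2.2) + (t.1 : ℝ) * (ev z t.2.1 * od w t.2.2)) *
        (-2 * ((t'.1 : ℝ) * (ev w t'.2.1 * od z t'.2.2) +
          (t'.1 : ℝ) * (ev z t'.2.1 * od w t'.2.2))) +
      ((t.1 : ℝ) * (ev z t.2.1 * od z t.2.2)) *
        (-2 * ((t'.1 : ℝ) * (ev w t'.2.1 * od w t'.2.2))) := by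
    intro t t'
    unfold hm ev od
    push_cast
    ring
  simp_rw [h1]
  rw [sum_mul3]
  unfold bv
  simp only [List.sum_map_mul_left, List.sum_map_add]
  ring

/-- The sum of the absolute values of the coefficients. -/
def wtL (l : List QT) : ℕ := (l.map fun t => t.1.natAbs).sum

/-- The constant `K`. -/
def KK (s : ℤ) (L : List (List QT)) : ℤ := s + ((L.map fun f => wtL (bil f) ^ 2).sum : ℕ)

/-- The quartic form. -/
def qf (n : ℕ) (s : ℤ) (L : List (List QT)) : List Mon :=
  sqM s n 0 1 ++ (L.flatMap fun f => prM (bil f)) ++ (sqM (KK s L) n 0 0 ++ sqM (KK s L) n 1 1)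

theorem hess_append (A B : List Mon) (z w : ℕ → ℝ) :
    hess (A ++ B) z w = hess A z w + hess B z w := by simp [hess]

theorem hess_flatMap {α : Type} (l : List α) (F : α → List Mon) (z w : ℕ → ℝ) :
    hess (l.flatMap F) z w = (l.map fun a => hess (F a) z w).sum := by
  induction l with
  | nil => rfl
  | cons a l ih => rw [List.flatMap_cons, hess_append, ih, List.map_cons, List.sum_cons]

/-- The biquadratic form. -/
def BQ (n : ℕ) (s : ℤ) (L : List (List QT)) (x y : ℕ → ℝ) : ℝ :=
  s * (ip n x x * ip n y y) - (L.map fun f => fev x y f ^ 2).sum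

theorem hess_qf (n : ℕ) (s : ℤ) (L : List (List QT)) (z w : ℕ → ℝ) : hess (qf n s L) z w =
    2 * BQ n s L (ev z) (od w) + 2 * BQ n s L (ev w) (od z) +
      8 * s * (ip n (ev z) (ev w) * ip n (od z) (od w)) -
      4 * (L.map fun f => fev (ev z) (od z) f * fev (ev w) (od w) f +
        fev (ev z) (od w) f * fev (ev w) (od z) f).sum +
      4 * (KK s L) * (ip n (ev z) (ev z) * ip n (ev w) (ev w) +
        ip n (od z) (od z) * ip n (od w) (od w)) +
      8 * (KK s L) * (ip n (ev z) (ev w) ^ 2 + ip n (od z) (od w) ^ 2) := by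
  unfold qf
  rw [hess_append, hess_append, hess_append, hess_flatMap, hess_sqM, hess_sqM, hess_sqM]
  simp_rw [hess_prM, bv_bil]
  have h1 : (L.map fun f => -(4 * (fev (ev z) (od z) f * fev (ev w) (od w) f) +
      2 * (fev (ev z) (od w) f + fev (ev w) (od z) f) ^ 2)).sum =
      -2 * (L.map fun f => fev (ev z) (od w) f ^ 2).sum +
      -2 * (L.map fun f => fev (ev w) (od z) f ^ 2).sum +
      -4 * (L.map fun f => fev (ev z) (od z) f * fev (ev w) (od w) f +
        fev (ev z) (od w) f * fev (ev w) (od z) f).sum := by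
    rw [← List.sum_map_mul_left, ← List.sum_map_mul_left, ← List.sum_map_mul_left,
      ← List.sum_map_add, ← List.sum_map_add]
    congr 1
    apply List.map_congr_left
    intro f _
    ring
  rw [h1]
  unfold BQ
  have e0 : ∀ a : ℕ → ℝ, (fun i => a (2 * i + 0)) = ev a := fun a => rfl
  have e1 : ∀ a : ℕ → ℝ, (fun i => a (2 * i + 1)) = od a := fun a => rfl
  simp only [e0, e1]
  ring

theorem ip_eq (n : ℕ) (a b : ℕ → ℝ) : ip n a b = ∑ i ∈ Finset.range n, a i * b i := by
  unfold ip
  rw [← List.sum_toFinset _ List.nodup_range, List.toFinset_range]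

theorem ip_self_nonneg (n : ℕ) (a : ℕ → ℝ) : 0 ≤ ip n a a := by
  rw [ip_eq]; exact Finset.sum_nonneg fun i _ => mul_self_nonneg _

theorem ip_sq_le (n : ℕ) (a b : ℕ → ℝ) : ip n a b ^ 2 ≤ ip n a a * ip n b b := by
  rw [ip_eq, ip_eq, ip_eq]
  have := Finset.sum_mul_sq_le_sq_mul_sq (Finset.range n) a b
  simpa only [sq] using this

theorem sq_le_ip {n i : ℕ} (hi : i < n) (a : ℕ → ℝ) : a i ^ 2 ≤ ip n a a := by
  rw [ip_eq, sq]
  exact Finset.single_le_sum (f := fun i => a i * a i) (fun _ _ => mul_self_nonneg _)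
    (Finset.mem_range.2 hi)

/-- `|β(x, y)|` is at most the sum of the absolute values of the coefficients times `|x| |y|`. -/
theorem abs_fev_le {n : ℕ} {f : List QT} (hf : FOk n f) (x y : ℕ → ℝ) :
    |fev x y f| ≤ (wtL (bil f) : ℝ) * (Real.sqrt (ip n x x) * Real.sqrt (ip n y y)) := by
  have h0 : ∀ (i : ℕ), i < n → ∀ a : ℕ → ℝ, |a i| ≤ Real.sqrt (ip n a a) := fun i hi a =>
    Real.abs_le_sqrt (sq_le_ip hi a)
  have h1 : ∀ l : List QT, FOk n l → |bv x y l| ≤
      (wtL l : ℝ) * (Real.sqrt (ip n x x) * Real.sqrt (ip n y y)) := by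
    intro l
    induction l with
    | nil => intro _; simp [bv, wtL]
    | cons t l ih =>
      intro hl
      have h2 := ih fun t' ht' => hl t' (List.mem_cons_of_mem _ ht')
      have h3 := hl t List.mem_cons_self
      have h4 : bv x y (t :: l) = (t.1 : ℝ) * (x t.2.1 * y t.2.2) + bv x y l := by simp [bv]
      have h5 : (wtL (t :: l) : ℝ) = |(t.1 : ℝ)| + wtL l := by
        unfold wtL
        rw [List.map_cons, List.sum_cons]
        push_cast
        rw [Nat.cast_natAbs]
        push_cast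
        rfl
      rw [h4, h5, add_mul]
      refine (abs_add_le _ _).trans (add_le_add ?_ h2)
      rw [abs_mul, abs_mul]
      have h6 := h0 _ h3.1 x
      have h7 := h0 _ h3.2 y
      gcongr
  rw [← bv_bil]
  refine h1 _ fun t ht => ?_
  unfold bil at ht
  rw [List.mem_flatMap] at ht
  obtain ⟨t', ht', h2⟩ := ht
  have h3 := hf t' ht'
  simp only [List.mem_cons, List.not_mem_nil, or_false] at h2
  rcases h2 with rfl | rfl
  · exact h3
  · exact ⟨h3.2, h3.1⟩

/-- **Correctness of the reduction.** -/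
theorem convex_qf_iff {n : ℕ} {s : ℤ} (hs : 0 ≤ s) {L : List (List QT)} (hL : ∀ f ∈ L, FOk n f) :
    ConvexForm (qf n s L) ↔ ∀ x y : ℕ → ℝ, 0 ≤ BQ n s L x y := by
  rw [convexForm_iff]
  constructor
  · intro h x y
    let z : ℕ → ℝ := fun k => if k % 2 = 0 then x (k / 2) else 0
    let w : ℕ → ℝ := fun k => if k % 2 = 0 then 0 else y (k / 2)
    have e1 : ev z = x := by
      ext i; simp [ev, z]
    have e2 : od z = 0 := by
      ext i; simp [od, z, Nat.add_mod]
    have e3 : ev w = 0 := by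
      ext i; simp [ev, w]
    have e4 : od w = y := by
      ext i
      have : (2 * i + 1) / 2 = i := by omega
      simp [od, w, Nat.add_mod, this]
    have h1 := h z w
    rw [hess_qf, e1, e2, e3, e4] at h1
    have e5 : ∀ a : ℕ → ℝ, ip n a 0 = 0 := fun a => by simp [ip]
    have e6 : ∀ a : ℕ → ℝ, ip n 0 a = 0 := fun a => by simp [ip]
    have e7 : ∀ (a : ℕ → ℝ) (f : List QT), fev a 0 f = 0 := fun a f => by
      unfold fev
      apply List.sum_eq_zero
      intro r hr
      obtain ⟨t, _, rfl⟩ := List.mem_map.1 hr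
      simp [tev, bev]
    have e8 : ∀ (a : ℕ → ℝ) (f : List QT), fev 0 a f = 0 := fun a f => by
      unfold fev
      apply List.sum_eq_zero
      intro r hr
      obtain ⟨t, _, rfl⟩ := List.mem_map.1 hr
      simp [tev, bev]
    have e9 : BQ n s L 0 0 = 0 := by
      unfold BQ; simp [e5, e7]
    simp only [e5, e6, e7, e8, e9, mul_zero, add_zero, zero_mul] at h1
    simp at h1
    linarith
  · intro h z w
    rw [hess_qf]
    have h1 := h (ev z) (od w)
    have h2 := h (ev w) (od z)
    set X := ip n (ev z) (ev z)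
    set U := ip n (ev w) (ev w)
    set Y := ip n (od z) (od z)
    set V := ip n (od w) (od w)
    set a := ip n (ev z) (ev w)
    set b := ip n (od z) (od w)
    have hX : 0 ≤ X := ip_self_nonneg _ _
    have hU : 0 ≤ U := ip_self_nonneg _ _
    have hY : 0 ≤ Y := ip_self_nonneg _ _
    have hV : 0 ≤ V := ip_self_nonneg _ _
    set F : ℝ := (((L.map fun f => wtL (bil f) ^ 2).sum : ℕ) : ℝ) with hF
    have hF0 : 0 ≤ F := Nat.cast_nonneg _
    have hK : ((KK s L : ℤ) : ℝ) = s + F := by
      unfold KK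
      rw [Int.cast_add, Int.cast_natCast]
    have hs' : (0 : ℝ) ≤ s := by exact_mod_cast hs
    have h3 : (L.map fun f => fev (ev z) (od z) f * fev (ev w) (od w) f +
        fev (ev z) (od w) f * fev (ev w) (od z) f).sum ≤ F * (X * U + Y * V) := by
      have h4 : F * (X * U + Y * V) =
          (L.map fun f => ((wtL (bil f) : ℝ) ^ 2) * (X * U + Y * V)).sum := by
        rw [List.sum_map_mul_right, hF]
        congr 1
        push_cast
        rw [List.map_map]
        congr 1
        apply List.map_congr_left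
        intro f _
        simp
      rw [h4]
      apply List.sum_le_sum
      intro f hf
      have b1 := abs_fev_le (hL f hf) (ev z) (od z)
      have b2 := abs_fev_le (hL f hf) (ev w) (od w)
      have b3 := abs_fev_le (hL f hf) (ev z) (od w)
      have b4 := abs_fev_le (hL f hf) (ev w) (od z)
      set k : ℝ := (wtL (bil f) : ℝ)
      have hk : 0 ≤ k := Nat.cast_nonneg _
      have c1 : fev (ev z) (od z) f * fev (ev w) (od w) f ≤
          (k * (Real.sqrt X * Real.sqrt Y)) * (k * (Real.sqrt U * Real.sqrt V)) := by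
        refine (le_abs_self _).trans ?_
        rw [abs_mul]
        exact mul_le_mul b1 b2 (abs_nonneg _) (by positivity)
      have c2 : fev (ev z) (od w) f * fev (ev w) (od z) f ≤
          (k * (Real.sqrt X * Real.sqrt V)) * (k * (Real.sqrt U * Real.sqrt Y)) := by
        refine (le_abs_self _).trans ?_
        rw [abs_mul]
        exact mul_le_mul b3 b4 (abs_nonneg _) (by positivity)
      have c3 : (Real.sqrt X * Real.sqrt U) * (Real.sqrt Y * Real.sqrt V) ≤
          (X * U + Y * V) / 2 := by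
        have d1 : (Real.sqrt X * Real.sqrt U) ^ 2 = X * U := by
          rw [mul_pow, Real.sq_sqrt hX, Real.sq_sqrt hU]
        have d2 : (Real.sqrt Y * Real.sqrt V) ^ 2 = Y * V := by
          rw [mul_pow, Real.sq_sqrt hY, Real.sq_sqrt hV]
        nlinarith [sq_nonneg (Real.sqrt X * Real.sqrt U - Real.sqrt Y * Real.sqrt V)]
      have c4 : k ^ 2 * ((Real.sqrt X * Real.sqrt U) * (Real.sqrt Y * Real.sqrt V)) ≤
          k ^ 2 * ((X * U + Y * V) / 2) := mul_le_mul_of_nonneg_left c3 (by positivity)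
      nlinarith
    have h4 : -(a ^ 2 + b ^ 2) ≤ 2 * (a * b) := by nlinarith [sq_nonneg (a + b)]
    have h5 : -(s * (a ^ 2 + b ^ 2)) ≤ (s : ℝ) * (2 * (a * b)) := by nlinarith
    rw [hK]
    have h6 : 0 ≤ (s : ℝ) * (X * U + Y * V) := by positivity
    have h7 : 0 ≤ F * (a ^ 2 + b ^ 2) := by positivity
    have h8 : 0 ≤ (s : ℝ) * (a ^ 2 + b ^ 2) := by positivity
    nlinarith

end Pool.Agent.TH925.CQ
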