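import Pool.Agent.TH925.CQ.Inst
import Pool.Agent.TH925.CQ.Quasi
import Pool.Agent.TH662.SN.Time

/-!
# The complexity of convexity of quartic forms
-/

namespace Pool.Agent.NPC.TH925CQ

open Pool.Agent.NPC Pool.Agent.NPC.ER Pool.Agent.H78R3.TSV Pool.Agent.TH662.SN
  Pool.Agent.NPC.H78TSV Pool.Agent.NPC.TH662SN Pool.Agent.TH925.CQ

section

variable {α : Type} [TEnc α]

theorem poly_bil {f : α → List QT} (hf : Poly f) : Poly (fun a => bil (f a)) := by
  refine Poly.flatMap (F := fun (_ : α) (t : QT) =>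
    [(t.1, t.2.1, t.2.2), (t.1, t.2.2, t.2.1)]) hf ?_
  have t1 : Poly (fun p : α × QT => p.2.1) := Poly.fst (Poly.snd Poly.id)
  have t2 : Poly (fun p : α × QT => p.2.2.1) := Poly.fst (Poly.snd (Poly.snd Poly.id))
  have t3 : Poly (fun p : α × QT => p.2.2.2) := Poly.snd (Poly.snd (Poly.snd Poly.id))
  exact Poly.cons (Poly.pair t1 (Poly.pair t2 t3)) (Poly.cons (Poly.pair t1 (Poly.pair t3 t2))
    (Poly.const []))

theorem poly_sqM {c : α → ℤ} {n : α → ℕ} (hc : Poly c) (hn : UPoly n) (p q : ℕ) :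
    Poly (fun a => sqM (c a) (n a) p q) := by
  refine Poly.flatMap (F := fun a i => (List.range (n a)).map fun j =>
    ((c a, (2 * i + p, 2 * i + p), (2 * j + q, 2 * j + q)) : Mon)) hn.range ?_
  refine Poly.map (F := fun (r : α × ℕ) j =>
    ((c r.1, (2 * r.2 + p, 2 * r.2 + p), (2 * j + q, 2 * j + q)) : Mon))
    (hn.range.comp (Poly.fst Poly.id)) ?_
  have e1 : Poly (fun r : (α × ℕ) × ℕ => c r.1.1) := hc.comp (Poly.fst (Poly.fst Poly.id))
  have e2 : Poly (fun r : (α × ℕ) × ℕ => 2 * r.1.2 + p) :=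
    Poly.add (Poly.mul (Poly.const 2) (Poly.snd (Poly.fst Poly.id))) (Poly.const p)
  have e3 : Poly (fun r : (α × ℕ) × ℕ => 2 * r.2 + q) :=
    Poly.add (Poly.mul (Poly.const 2) (Poly.snd Poly.id)) (Poly.const q)
  exact Poly.pair e1 (Poly.pair (Poly.pair e2 e2) (Poly.pair e3 e3))

theorem poly_prM {l : α → List QT} (hl : Poly l) : Poly (fun a => prM (l a)) := by
  refine Poly.flatMap (F := fun a (t : QT) => (l a).map fun t' =>
    ((-(t.1 * t'.1), (2 * t.2.1, 2 * t.2.2 + 1), (2 * t'.2.1, 2 * t'.2.2 + 1)) : Mon)) hl ?_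
  refine Poly.map (F := fun (r : α × QT) (t' : QT) =>
    ((-(r.2.1 * t'.1), (2 * r.2.2.1, 2 * r.2.2.2 + 1), (2 * t'.2.1, 2 * t'.2.2 + 1)) : Mon))
    (hl.comp (Poly.fst Poly.id)) ?_
  have a1 : Poly (fun r : (α × QT) × QT => r.1.2.1) := Poly.fst (Poly.snd (Poly.fst Poly.id))
  have a2 : Poly (fun r : (α × QT) × QT => r.1.2.2.1) :=
    Poly.fst (Poly.snd (Poly.snd (Poly.fst Poly.id)))
  have a3 : Poly (fun r : (α × QT) × QT => r.1.2.2.2) :=
    Poly.snd (Poly.snd (Poly.snd (Poly.fst Poly.id)))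
  have b1 : Poly (fun r : (α × QT) × QT => r.2.1) := Poly.fst (Poly.snd Poly.id)
  have b2 : Poly (fun r : (α × QT) × QT => r.2.2.1) := Poly.fst (Poly.snd (Poly.snd Poly.id))
  have b3 : Poly (fun r : (α × QT) × QT => r.2.2.2) := Poly.snd (Poly.snd (Poly.snd Poly.id))
  have two : ∀ {g : (α × QT) × QT → ℕ}, Poly g → Poly (fun r => 2 * g r) := fun hg =>
    Poly.mul (Poly.const 2) hg
  exact Poly.pair (Poly.ineg (Poly.imul a1 b1)) (Poly.pair (Poly.pair (two a2)
    (Poly.add (two a3) (Poly.const 1))) (Poly.pair (two b2) (Poly.add (two b3) (Poly.const 1))))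

theorem poly_wtL {l : α → List QT} (hl : Poly l) : Poly (fun a => wtL (l a)) :=
  Poly.sum (Poly.map (F := fun (_ : α) (t : QT) => t.1.natAbs) hl
    (Poly.natAbs (Poly.fst (Poly.snd Poly.id))))

theorem poly_KK {s : α → ℤ} {L : α → List (List QT)} (hs : Poly s) (hL : Poly L) :
    Poly (fun a => KK (s a) (L a)) := by
  refine Poly.iadd hs (Poly.natCast (Poly.sum (Poly.map
    (F := fun (_ : α) (f : List QT) => wtL (bil f) ^ 2) hL ?_)))
  have h1 : Poly (fun p : α × List QT => wtL (bil p.2)) := poly_wtL (poly_bil (Poly.snd Poly.id))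
  exact (Poly.mul h1 h1).congr fun p => (sq _).symm

theorem poly_qf {n : α → ℕ} {s : α → ℤ} {L : α → List (List QT)} (hn : UPoly n) (hs : Poly s)
    (hL : Poly L) : Poly (fun a => qf (n a) (s a) (L a)) := by
  have hK := poly_KK hs hL
  refine Poly.append (Poly.append (poly_sqM hs hn 0 1) ?_)
    (Poly.append (poly_sqM hK hn 0 0) (poly_sqM hK hn 1 1))
  exact Poly.flatMap (F := fun (_ : α) (f : List QT) => prM (bil f)) hL
    (poly_prM (poly_bil (Poly.snd Poly.id)))

theorem poly_lf {S : α → List ER.Con} (hS : Poly S) : Poly (fun a => lf (S a)) :=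
  poly_formsU (upoly_hn (poly_gsys hS)) (poly_hsysU (poly_gsys hS)) (poly_uix hS)

theorem poly_th {S : α → List ER.Con} (hS : Poly S) : Poly (fun a => th (S a)) := by
  have h1 : Poly (fun a => 48 * (18 * (hsysU (gsys (S a))).length)) :=
    Poly.mul (Poly.const 48) (Poly.mul (Poly.const 18) (Poly.length (poly_hsysU (poly_gsys hS))))
  exact (Poly.mul h1 h1).congr fun a => (sq _).symm

theorem poly_instC {S : α → List ER.Con} (hS : Poly S) : Poly (fun a => instC (S a)) :=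
  poly_qf (upoly_hn (poly_gsys hS)) (Poly.natCast (poly_th hS)) (poly_lf hS)

theorem hard : ARHard (lang ConvexForm) :=
  ARHard.of_sys (poly_instC Poly.id) sat_iff_not_convex

/-! ### Membership -/

/-- The second derivative as a term; the coordinates of the point are the variables `2 i`, the
coordinates of the direction are the variables `2 i + 1`. -/
def hmT (m : Mon) : Tm :=
  let z : ℕ → Tm := fun i => Tm.var (2 * i)
  let w : ℕ → Tm := fun i => Tm.var (2 * i + 1)
  Tm.mul (intTm m.1) (Tm.mul (Tm.add Tm.one Tm.one)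
    (Tm.add (Tm.add
      (Tm.mul (Tm.mul (w m.2.1.1) (w m.2.1.2)) (Tm.mul (z m.2.2.1) (z m.2.2.2)))
      (Tm.mul (Tm.add (Tm.mul (w m.2.1.1) (z m.2.1.2)) (Tm.mul (z m.2.1.1) (w m.2.1.2)))
        (Tm.add (Tm.mul (w m.2.2.1) (z m.2.2.2)) (Tm.mul (z m.2.2.1) (w m.2.2.2)))))
      (Tm.mul (Tm.mul (z m.2.1.1) (z m.2.1.2)) (Tm.mul (w m.2.2.1) (w m.2.2.2)))))

/-- The formula which says that the form is not convex. -/
def memF (L : List Mon) : Fm := Fm.lt (sumTm (L.map hmT)) Tm.zero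

theorem eval_hmT (x : ℕ → ℝ) (m : Mon) : (hmT m).eval x = hm (Pool.Agent.TH925.CQ.ev x) (Pool.Agent.TH925.CQ.od x) m := by
  unfold hmT hm Pool.Agent.TH925.CQ.ev Pool.Agent.TH925.CQ.od
  simp only [Tm.eval, eval_intTm]
  ring

theorem mem_correct (L : List Mon) : ¬ ConvexForm L ↔ ETR (memF L) := by
  rw [convexForm_iff]
  push Not
  unfold ETR memF
  have h1 : ∀ x : ℕ → ℝ, (sumTm (L.map hmT)).eval x = hess L (Pool.Agent.TH925.CQ.ev x) (Pool.Agent.TH925.CQ.od x) := by
    intro x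
    rw [eval_sumTm, List.map_map]
    unfold hess
    congr 1
    apply List.map_congr_left
    intro m _
    exact eval_hmT x m
  simp only [Fm.Holds, Tm.eval, h1]
  constructor
  · rintro ⟨z, w, h⟩
    refine ⟨fun k => if k % 2 = 0 then z (k / 2) else w (k / 2), ?_⟩
    have e1 : Pool.Agent.TH925.CQ.ev (fun k => if k % 2 = 0 then z (k / 2) else w (k / 2)) = z := by
      ext i; simp [Pool.Agent.TH925.CQ.ev]
    have e2 : Pool.Agent.TH925.CQ.od (fun k => if k % 2 = 0 then z (k / 2) else w (k / 2)) = w := by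
      ext i
      have : (2 * i + 1) / 2 = i := by omega
      simp [Pool.Agent.TH925.CQ.od, Nat.add_mod, this]
    rw [e1, e2]
    exact h
  · rintro ⟨x, h⟩
    exact ⟨_, _, h⟩

theorem poly_hmT {m : α → Mon} (hm : Poly m) : Poly (fun a => hmT (m a)) := by
  have i1 : Poly (fun a => (m a).2.1.1) := Poly.fst (Poly.fst (Poly.snd hm))
  have i2 : Poly (fun a => (m a).2.1.2) := Poly.snd (Poly.fst (Poly.snd hm))
  have i3 : Poly (fun a => (m a).2.2.1) := Poly.fst (Poly.snd (Poly.snd hm))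
  have i4 : Poly (fun a => (m a).2.2.2) := Poly.snd (Poly.snd (Poly.snd hm))
  have hz : ∀ {g : α → ℕ}, Poly g → Poly (fun a => Tm.var (2 * g a)) := fun hg =>
    H612.poly_tvar (Poly.mul (Poly.const 2) hg)
  have hw : ∀ {g : α → ℕ}, Poly g → Poly (fun a => Tm.var (2 * g a + 1)) := fun hg =>
    H612.poly_tvar (Poly.add (Poly.mul (Poly.const 2) hg) (Poly.const 1))
  refine H612.poly_tmul (poly_intTm (Poly.fst hm)) (H612.poly_tmul (Poly.const _)
    (H612.poly_tadd (H612.poly_tadd ?_ ?_) ?_))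
  · exact H612.poly_tmul (H612.poly_tmul (hw i1) (hw i2)) (H612.poly_tmul (hz i3) (hz i4))
  · exact H612.poly_tmul (H612.poly_tadd (H612.poly_tmul (hw i1) (hz i2)) (H612.poly_tmul (hz i1) (hw i2)))
      (H612.poly_tadd (H612.poly_tmul (hw i3) (hz i4)) (H612.poly_tmul (hz i3) (hw i4)))
  · exact H612.poly_tmul (H612.poly_tmul (hz i1) (hz i2)) (H612.poly_tmul (hw i3) (hw i4))

theorem poly_memF : Poly memF :=
  H612.poly_flt (poly_sumTm (Poly.map (F := fun (_ : List Mon) (m : Mon) => hmT m) Poly.id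
    (poly_hmT (Poly.snd Poly.id)))) (Poly.const _)

end

theorem mem : InAR (lang ConvexForm) := InAR.of_poly poly_memF mem_correct

theorem complete : ARComplete (lang ConvexForm) := ⟨mem, hard⟩

end Pool.Agent.NPC.TH925CQ
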